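import Pool.Agent.Lib_helper42.AQ.Estimates
import Pool.Agent.Lib_helper42.AQ.Congr
import Pool.Agent.Lib_helper65.AQ.LastPieces

/-!
# The Dirichlet problem for `(u₁₁ u₂₂)^{1/2} = 1`: full (positive) answer to Q1

For every bounded uniformly coordinate-convex domain `Ω` of class `C³` and every `φ ∈ C³(∂Ω)` the
Dirichlet problem has exactly one solution, and this solution is in `C^{2,α}(closure Ω)` for every
`α ∈ (0, 1)`.  Definitions: `D1`, `D2` (partial derivatives) in `AP/Calc.lean`, `C3Boundary` in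
`AP/Component.lean`, `CoordConvex`, `C3On`, `ViscSol`, `IsSolution`, `C2Holder` in
`AQ/FinalDefs.lean`.
-/

namespace Pool.Agent.Results.MP_a720bd_an.DirichletC2Alpha

open Set Filter Topology AP AQ
open scoped ContDiff

/-- `w` is smooth and uniformly coordinate-convex on the plane -/
def UniformlyCoordConvex (w : ℝ × ℝ → ℝ) : Prop :=
  ContDiff ℝ ∞ w ∧ ∃ c : ℝ, 0 < c ∧ ∀ x, c ≤ D1 (D1 w) x ∧ c ≤ D2 (D2 w) x

/-- uniformly coordinate-convex domains: connected components of `{w < 0}` -/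
def UCCDomain (Ω : Set (ℝ × ℝ)) : Prop :=
  ∃ w : ℝ × ℝ → ℝ, UniformlyCoordConvex w ∧
    ∃ x₀ : ℝ × ℝ, w x₀ < 0 ∧ Ω = connectedComponentIn {x | w x < 0} x₀

/-- **Full positive answer to Q1.** -/
theorem result (Ω : Set (ℝ × ℝ)) (hΩ : UCCDomain Ω) (hb : Bornology.IsBounded Ω)
    (hC : C3Boundary Ω) (φ : ℝ × ℝ → ℝ) (hφ : C3On (frontier Ω) φ) :
    ∃ u : ℝ × ℝ → ℝ, IsSolution Ω φ u ∧
      (∀ v : ℝ × ℝ → ℝ, IsSolution Ω φ v → ∀ x ∈ closure Ω, v x = u x) ∧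
      (∀ v : ℝ × ℝ → ℝ, ContinuousOn v (closure Ω) → ContDiffOn ℝ 2 v Ω →
        (∀ x ∈ Ω, 0 ≤ D1 (D1 v) x ∧ 0 ≤ D2 (D2 v) x ∧ √(D1 (D1 v) x * D2 (D2 v) x) = 1) →
        (∀ x ∈ frontier Ω, v x = φ x) → ∀ x ∈ closure Ω, v x = u x) ∧
      (∀ x ∈ Ω, 0 < D1 (D1 u) x ∧ 0 < D2 (D2 u) x ∧ √(D1 (D1 u) x * D2 (D2 u) x) = 1) ∧
      ∀ α : ℝ, 0 < α → α < 1 → C2Holder Ω α u := by
  obtain ⟨w, ⟨hw, c, hc, hcc⟩, x₀, hx₀, rfl⟩ := hΩ
  have hw3 : ContDiff ℝ 3 w := cd3_of_inf hw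
  have hD : Dom w (connectedComponentIn {x | w x < 0} x₀) c :=
    Dom.of_component hw3 hc (fun x => (hcc x).1) (fun x => (hcc x).2) hb
      (grad_ne_zero hw3 hc (fun x => (hcc x).1) (fun x => (hcc x).2) hC)
  have hne : (connectedComponentIn {x | w x < 0} x₀).Nonempty :=
    ⟨x₀, mem_connectedComponentIn hx₀⟩
  have hconn : IsPreconnected (connectedComponentIn {x | w x < 0} x₀) :=
    isPreconnected_connectedComponentIn
  set Ω := connectedComponentIn {x | w x < 0} x₀ with hΩ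
  obtain ⟨Φ, Ψ, h⟩ := exists_Diffeo hw hD hne hconn
  obtain ⟨ψ, sψ, hψ⟩ := exists_ext isClosed_frontier hφ
  have key : ∀ α : ℝ, 0 < α → α < 1 → ∃ u : ℝ × ℝ → ℝ, C2Holder Ω α u ∧
      (∀ x ∈ Ω, 0 < D1 (D1 u) x ∧ 0 < D2 (D2 u) x ∧ D1 (D1 u) x * D2 (D2 u) x = 1) ∧
      ∀ x ∈ frontier Ω, u x = φ x := by
    intro α h0 h1
    obtain ⟨u, hu1, hu2, hu3⟩ := exists_C2a schauderThree (nonlinTwo hf0 hf1) h0 h1
      (nonlinTwo h0 h1) hD h sψ
    exact ⟨u, hu1, hu2, fun x hx => (hu3 x hx).trans (hψ x hx)⟩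
  obtain ⟨u, hu, hpos, hbc⟩ := key (1 / 2) hf0 hf1
  have hun : ∀ v : ℝ × ℝ → ℝ, IsSolution Ω φ v → ∀ x ∈ closure Ω, v x = u x := fun v hv =>
    IsSolution.unique hD hu.c2 hu.cont (fun x hx => (hpos x hx).1) (fun x hx => (hpos x hx).2.1)
      (fun x hx => (hpos x hx).2.2) hbc hv
  refine ⟨u, IsSolution.of_classical hD hu.c2 hu.cont (fun x hx => (hpos x hx).1)
    (fun x hx => (hpos x hx).2.1) (fun x hx => (hpos x hx).2.2) hbc, hun, ?_,
    fun x hx => ⟨(hpos x hx).1, (hpos x hx).2.1, by rw [(hpos x hx).2.2, Real.sqrt_one]⟩,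
    fun α h0 h1 => ?_⟩
  · intro v hvc hv2 hveq hvb
    have e : ∀ x ∈ Ω, D1 (D1 v) x * D2 (D2 v) x = 1 := fun x hx =>
      Real.sqrt_eq_one.1 (hveq x hx).2.2
    refine hun v (IsSolution.of_classical hD hv2 hvc (fun x hx => ?_) (fun x hx => ?_) e hvb)
    · refine (hveq x hx).1.lt_of_ne fun h0 => ?_
      have := e x hx
      rw [← h0, zero_mul] at this
      exact zero_ne_one this
    · refine (hveq x hx).2.1.lt_of_ne fun h0 => ?_
      have := e x hx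
      rw [← h0, mul_zero] at this
      exact zero_ne_one this
  obtain ⟨v, hv, hvpos, hvbc⟩ := key α h0 h1
  exact hv.congr hD.isOpen (hun v (IsSolution.of_classical hD hv.c2 hv.cont (fun x hx => (hvpos x hx).1)
    (fun x hx => (hvpos x hx).2.1) (fun x hx => (hvpos x hx).2.2) hvbc))

end Pool.Agent.Results.MP_a720bd_an.DirichletC2Alpha
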